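import Pool.Agent.Lib.MCP.FinA
import Pool.Agent.Lib.MS.FinS

/-!
# Sums of the Möbius function along almost all polynomials

For a vector `a = (a_1, …, a_m)` of positive integers put `P(i) = a_1 i + a_2 i ^ 2 + … + a_m i ^ m` (`poly a i`) and, for real
coefficients `c_i`, `S(n) = ∑_{i ≤ D} c_i μ(n + P(i))` (`polySum a D c n`). The theorem describes, for almost all `a ∈ [1, H]^m`, where
`x ^ (1 / 6 + ε) ≤ H ≤ x`, the distribution of `S(n)`, `n ≤ y`, for ALL `D` up to any fixed power of `log x`, all `y ≤ x` and all coefficients.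

Part 1: the moments of order `k ≤ m`, with an arbitrary bounded weight `w(n)`, and the moment of order `m + 1` without weight, are
those of the sums with random signs, `signMean a D c k n` being the mean of `S(n) ^ k` over the `2 ^ D` changes of signs of `c_1, …, c_D`. The
error is less than `x` divided by any fixed power of `log x`.

Part 2: the variance is `(6 / π²) y ∑ c_i²`. For `m = 1` (arithmetic progressions `n + a i`, `i ≤ D`) this is the analogue, for almost all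
`a ≤ H`, of the variance conjecture of Good and Churchhouse (`a = 1`).

Part 3: the normal law. `S(n) / √((6 / π²) ∑ c_i²)` is within `δ` of the standard normal law if `m ≥ m₀(δ)`, `D ≥ D₀(δ)`; the linear
coefficient `a_1` is coprime to `W = W(δ)` and the other ones are divisible by `W²` (so that `P(i)` is well distributed modulo
squares), and the `c_i²` do not oscillate.

Part 4: the normal law, with the normalisation `√(D / ζ(2))` of the conjecture of Good and Churchhouse, for the sums `∑_{i ≤ D} ± μ(n + h_i)`,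
for almost all vectors `(h_1, …, h_D) ∈ [1, H]^D` (random subsets of a short interval).
-/

set_option autoImplicit false

open Finset Filter ProbabilityTheory

namespace Pool.Agent.Results.MP_4f18df_nt.CompletePolynomials

/-- `P(i) = a_1 i + a_2 i ^ 2 + … + a_m i ^ m`; in Lean the coefficients are `a 0, …, a (m - 1)`. -/
def poly {m : ℕ} (a : Fin m → ℕ) (i : ℕ) : ℕ := ∑ l : Fin m, a l * i ^ (l.val + 1)

/-- `S(n) = ∑_{i ≤ D} c_i μ(n + P(i))`. -/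
noncomputable def polySum {m : ℕ} (a : Fin m → ℕ) (D : ℕ) (c : ℕ → ℝ) (n : ℕ) : ℝ :=
  ∑ i ∈ Icc 1 D, c i * (ArithmeticFunction.moebius (n + poly a i) : ℝ)

/-- The mean of `S(n) ^ k` over the `2 ^ D` changes of signs of `c_1, …, c_D` (`U` is the set of the `i` with a changed sign). -/
noncomputable def signMean {m : ℕ} (a : Fin m → ℕ) (D : ℕ) (c : ℕ → ℝ) (k n : ℕ) : ℝ :=
  (∑ U ∈ (Icc 1 D).powerset, polySum a D (fun i => if i ∈ U then -c i else c i) n ^ k) / 2 ^ D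

private lemma rpow_le {L K : ℝ} (hL : 1 ≤ L) : L ^ K ≤ L ^ (⌈K⌉₊ : ℕ) := by
  rw [← Real.rpow_natCast]
  exact Real.rpow_le_rpow_of_exponent_le hL (Nat.le_ceil K)

private lemma div_le {L A M : ℝ} (hL : 1 ≤ L) (hM : 0 ≤ M) : M / L ^ (⌈A⌉₊ : ℕ) ≤ M / L ^ A :=
  div_le_div_of_nonneg_left hM (Real.rpow_pos_of_pos (by linarith) A) (rpow_le hL)

private lemma log_ge : ∀ᶠ x : ℕ in atTop, (1 : ℝ) ≤ Real.log x :=
  (Real.tendsto_log_atTop.comp tendsto_natCast_atTop_atTop).eventually_ge_atTop 1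

theorem result :
    (∀ (m : ℕ) (ε K A : ℝ), 1 ≤ m → 0 < ε → 0 < K → 0 < A → ∃ x₀ : ℕ, ∀ x H : ℕ, x₀ ≤ x →
      (x : ℝ) ^ (1 / 6 + ε) ≤ H → H ≤ x → ∀ w : ℕ → ℝ, (∀ n, |w n| ≤ 1) →
      ∃ E : Finset (Fin m → ℕ), (E.card : ℝ) ≤ (H : ℝ) ^ m / Real.log x ^ A ∧
        ∀ a : Fin m → ℕ, (∀ l, 1 ≤ a l ∧ a l ≤ H) → a ∉ E →
          ∀ (D y : ℕ) (c : ℕ → ℝ), (D : ℝ) ≤ Real.log x ^ K → y ≤ x → (∀ i, |c i| ≤ 1) →
            (∀ k ≤ m, |∑ n ∈ Icc 1 y, w n * (polySum a D c n ^ k - signMean a D c k n)| ≤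
              x / Real.log x ^ A) ∧
            |∑ n ∈ Icc 1 y, (polySum a D c n ^ (m + 1) - signMean a D c (m + 1) n)| ≤
              x / Real.log x ^ A ∧
            |∑ n ∈ Icc 1 y, polySum a D c n ^ 2 - 6 / Real.pi ^ 2 * y * ∑ i ∈ Icc 1 D, c i ^ 2| ≤
              x / Real.log x ^ A) ∧
    (∀ δ V : ℝ, 0 < δ → 0 < V → ∃ m₀ D₀ W : ℕ, 1 ≤ W ∧
      ∀ (m : ℕ) (ε K A : ℝ), m₀ ≤ m → 0 < ε → 0 < K → 0 < A → ∃ x₀ : ℕ, ∀ x H : ℕ, x₀ ≤ x →
        (x : ℝ) ^ (1 / 6 + ε) ≤ H → H ≤ x →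
        ∃ E : Finset (Fin m → ℕ), (E.card : ℝ) ≤ (H : ℝ) ^ m / Real.log x ^ A ∧
          ∀ a : Fin m → ℕ, (∀ l, 1 ≤ a l ∧ a l ≤ H) → a ∉ E →
            (∀ l : Fin m, l.val = 0 → (a l).Coprime W) → (∀ l : Fin m, l.val ≠ 0 → W ^ 2 ∣ a l) →
            ∀ (D y : ℕ) (c : ℕ → ℝ), D₀ ≤ D → (D : ℝ) ≤ Real.log x ^ K →
              y ≤ x → (x : ℝ) ≤ y * Real.log x ^ K → (∀ i, |c i| ≤ 1) →
              ∑ i ∈ Icc 1 D, |c (i + 1) ^ 2 - c i ^ 2| ≤ V → (D : ℝ) ≤ V * ∑ i ∈ Icc 1 D, c i ^ 2 →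
              ∀ t : ℝ,
                |(((Icc 1 y).filter (fun n => polySum a D c n ≤
                    t * Real.sqrt (6 / Real.pi ^ 2 * ∑ i ∈ Icc 1 D, c i ^ 2))).card : ℝ) / y -
                  cdf (gaussianReal 0 1) t| ≤ δ) ∧
    (∀ δ : ℝ, 0 < δ → ∃ D₀ : ℕ, ∀ ε K : ℝ, 0 < ε → 0 < K → ∃ x₀ : ℕ, ∀ x H D : ℕ, x₀ ≤ x →
      (x : ℝ) ^ (1 / 6 + ε) ≤ H → H ≤ x → D₀ ≤ D → (D : ℝ) ≤ Real.log x ^ K →
      ∃ E : Finset (Fin D → ℕ), (E.card : ℝ) ≤ δ * (H : ℝ) ^ D ∧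
        ∀ h : Fin D → ℕ, (∀ i, 1 ≤ h i ∧ h i ≤ H) → h ∉ E →
          ∀ c : Fin D → ℝ, (∀ i, c i = 1 ∨ c i = -1) → ∀ t : ℝ,
            |(((Icc 1 x).filter (fun n => ∑ i : Fin D, c i * (ArithmeticFunction.moebius (n + h i) : ℝ) ≤
                t * Real.sqrt (D / (Real.pi ^ 2 / 6)))).card : ℝ) / x -
              cdf (gaussianReal 0 1) t| ≤ δ) := by
  refine ⟨?_, ?_, ?_⟩
  · intro m ε K A hm hε _ _
    obtain ⟨x₀, hx₀⟩ := eventually_atTop.mp ((Pool.Agent.MCP.part_a m ⌈K⌉₊ ⌈A⌉₊ hm ε hε).and log_ge)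
    refine ⟨x₀, fun x H hx h1 h2 w hw => ?_⟩
    obtain ⟨h3, hL⟩ := hx₀ x hx
    obtain ⟨E, hE, h4⟩ := h3 H h1 h2 w hw
    refine ⟨E, hE.trans (div_le hL (by positivity)), fun a ha haE D y c hD hy hc => ?_⟩
    obtain ⟨h5, h6, h7⟩ := h4 a ha haE D y c (hD.trans (rpow_le hL)) hy hc
    have hxA : (x : ℝ) / Real.log x ^ (⌈A⌉₊ : ℕ) ≤ x / Real.log x ^ A := div_le hL (Nat.cast_nonneg x)
    exact ⟨fun k hk => (h5 k hk).trans hxA, h6.trans hxA, h7.trans hxA⟩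
  · intro δ V hδ _
    obtain ⟨m₀, D₀, W, _, hW, h1⟩ := Pool.Agent.MCP.part_b δ (max V 1) hδ (le_max_right _ _)
    refine ⟨max m₀ 1, D₀, W, hW, fun m ε K A hm hε _ _ => ?_⟩
    obtain ⟨x₀, hx₀⟩ := eventually_atTop.mp
      ((h1 m ((le_max_left _ _).trans hm) ((le_max_right _ _).trans hm) ⌈K⌉₊ ⌈A⌉₊ ε hε).and log_ge)
    refine ⟨x₀, fun x H hx h2 h3 => ?_⟩
    obtain ⟨h4, hL⟩ := hx₀ x hx
    obtain ⟨E, hE, h5⟩ := h4 H h2 h3
    refine ⟨E, hE.trans (div_le hL (by positivity)), fun a ha haE ha1 ha2 D y c hD1 hD2 hy1 hy2 hc hV1 hV2 t => ?_⟩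
    exact h5 a ha haE ha1 ha2 D y c hD1 (hD2.trans (rpow_le hL)) hy1
      (hy2.trans (mul_le_mul_of_nonneg_left (rpow_le hL) (Nat.cast_nonneg y))) hc (hV1.trans (le_max_left _ _))
      (hV2.trans (mul_le_mul_of_nonneg_right (le_max_left _ _) (Finset.sum_nonneg fun i _ => sq_nonneg _))) t
  · intro δ hδ
    obtain ⟨D₀, _, h1⟩ := Pool.Agent.MS.fin_s δ hδ
    refine ⟨D₀, fun ε K hε _ => ?_⟩
    obtain ⟨x₀, hx₀⟩ := eventually_atTop.mp ((h1 ⌈K⌉₊ ε hε).and log_ge)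
    refine ⟨x₀, fun x H D hx h2 h3 hD1 hD2 => ?_⟩
    obtain ⟨h4, hL⟩ := hx₀ x hx
    obtain ⟨E, hE, h5⟩ := h4 D H hD1 (hD2.trans (rpow_le hL)) h2 h3
    refine ⟨E, hE, fun h hh hhE c hc t => ?_⟩
    have h6 := h5 h hh hhE c hc t
    have e1 : Pool.Agent.P4f18df.c2 * (D : ℝ) = D / (Real.pi ^ 2 / 6) := by
      unfold Pool.Agent.P4f18df.c2
      have := Real.pi_pos
      field_simp
    rw [e1] at h6
    exact h6

end Pool.Agent.Results.MP_4f18df_nt.CompletePolynomials
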