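import Pool.Agent.Lib.P4f18dfC.Final

/-!
# Good–Churchhouse law for complex twists of the Möbius function, at every scale

For every prime `q` and every `Y` above a constant, all but few Dirichlet characters `χ` modulo `q` are
such that the sums of `μ(n) χ(n)` over short intervals follow the complex Gaussian law around every scale
`X` with `Y ≤ X ≤ exp (q^c)`.  Exceptions: at most `q Y^(-B)` for `Y ≤ q^c`, at most `q^(1+η) / min (Y, q)`
for larger `Y`; so at most `q^η` for `Y ≥ q`.
-/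

set_option autoImplicit false

namespace Pool.Agent.Results.MP_4f18df_nt.ComplexTwists

open MeasureTheory ProbabilityTheory

theorem result :
    ∀ (ε δ η B : ℝ) (L : ℕ), 0 < ε → 0 < δ → 0 < η → 0 < B →
      ∃ c H₀ : ℝ, 0 < c ∧ ∀ q : ℕ, q.Prime → ∀ Y : ℝ, H₀ ≤ Y →
        ∃ E : Finset (DirichletCharacter ℂ q),
          (Y ≤ (q : ℝ) ^ c → (E.card : ℝ) ≤ q * Y ^ (-B)) ∧
          ((q : ℝ) ^ c < Y → (E.card : ℝ) ≤ (q : ℝ) ^ (1 + η) / min Y q) ∧
          ∀ χ : DirichletCharacter ℂ q, χ ∉ E →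
            ∀ X H : ℝ, Y ≤ X → X ≤ Real.exp ((q : ℝ) ^ c) → H₀ ≤ H →
              (H ≤ (min X q) ^ c ∨ (X ≤ (q : ℝ) ^ c ∧ H ≤ X ^ (1 - ε))) →
              ∀ u : ℂ, ‖u‖ = 1 →
              (∀ t : ℝ,
                |(volume
                    {x : ℝ | x ∈ Set.Icc X (2 * X) ∧
                      Real.sqrt 2 * (u * ∑ n ∈ (Finset.range (⌊x + H⌋₊ + 1)).filter
                          (fun n : ℕ => |(n : ℝ) - x| < H / 2),
                          (ArithmeticFunction.moebius n : ℂ) * χ (n : ZMod q)).re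
                        / Real.sqrt (H / (Real.pi ^ 2 / 6)) ≤ t}).toReal / X
                  - cdf (gaussianReal 0 1) t| ≤ δ) ∧
              (∀ k ≤ L,
                |(∫ x in X..(2 * X),
                    (Real.sqrt 2 * (u * ∑ n ∈ (Finset.range (⌊x + H⌋₊ + 1)).filter
                          (fun n : ℕ => |(n : ℝ) - x| < H / 2),
                          (ArithmeticFunction.moebius n : ℂ) * χ (n : ZMod q)).re
                        / Real.sqrt (H / (Real.pi ^ 2 / 6))) ^ k) / X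
                  - ∫ y, y ^ k ∂(gaussianReal 0 1)| ≤ δ) := by
  intro ε δ η B L hε hδ hη hB
  obtain ⟨c, H₀, hc, h⟩ := Pool.Agent.P4f18dfC.main ε δ η B L hε hδ hη hB
  refine ⟨c, H₀, hc, fun q hq Y hY => ?_⟩
  obtain ⟨E, hE1, hE2, hE'⟩ := h q hq Y hY
  refine ⟨E, hE1, hE2, fun χ hχ X H hYX hX hH halt u hu => ?_⟩
  obtain ⟨h1, h2⟩ := hE' χ hχ X H hYX hX hH halt u hu
  constructor
  · intro t
    have h3 := h1 t
    unfold Pool.Agent.P4f18dfT.Gd at h3
    simp only [Pool.Agent.P4f18dfC.Ms_cu] at h3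
    exact h3
  · intro k hk
    have h3 := h2 k hk
    unfold Pool.Agent.P4f18dfT.Md at h3
    simp only [Pool.Agent.P4f18dfC.Ms_cu] at h3
    exact h3

end Pool.Agent.Results.MP_4f18df_nt.ComplexTwists
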