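import Pool.Agent.Lib.MB.FinB
import Pool.Agent.Lib.MB.PowZ

/-!
# The signs of the Möbius function at `n + P_1(t), …, n + P_r(t)`, for almost all `t`

Part 1: for every `k ≥ 1` the values `μ(n)` and `μ(n + t ^ j)`, `k ≤ j < 6 k`, have independent and equidistributed signs, for almost all `t ≤ H`, if
`x ^ (1 / (6 k) + ε) ≤ H ≤ x ^ (1 / (6 k - 1))`: every pattern `η` of values in `{-1, 0, 1}` has the frequency of the pattern `η²` for `μ²`, divided by
two to the number of non-zero places, with an arbitrary power of `log x` saved in the error and in the exceptional set. (`η 0` is the value at `n` and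
`η j` the value at `n + t ^ j`.)

Part 2: the normal law for `∑_{k ≤ j < 6 k} c_j μ(n + j + t ^ j)` for all signs `c_j = ±1`, with the normalisation `√(5 k / ζ(2))` of the conjecture
of Good and Churchhouse, up to `δ` if `k ≥ k₀(δ)`.

`Independent r K A x Ω s`: `Ω` is a finite set of parameters, `s t 0, …, s t (r - 1)` are the shifts which belong to `t ∈ Ω`; for ALL sequences `w` and
`g 0, …, g (r - 1)` bounded by `(log x) ^ K`, all but `|Ω| / (log x) ^ A` of the `t` in `Ω` satisfy: for all `y ≤ x` and all nonempty sets `J` of indices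
the sum over `n ≤ y` of `w n` times the product of the `g i (n + s t i)`, `i ∉ J`, and of the `μ(n + s t i)`, `i ∈ J`, is at most `x / (log x) ^ A`.

Part 3: one parameter `t ∈ T ⊆ [0, H]` (`T` not too small, for instance the primes up to `H`) and any number `r` of shifts `P i (t)` with
integer polynomials of DISTINCT degrees `d i`, `x ^ (1 / 6 + ε) ≤ H ^ d i ≤ x`; uniform in the polynomials, whose coefficients may be as large as
`(log x) ^ K H ^ (d i - l)`.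
Part 4: any number of parameters. Every shift `k` must have a parameter `t_j` such that, for all values of the other parameters, either
the shifts are polynomials in `t_j` as in part 3, or constant, the shift `k` not being constant (`PolynomialFamily`), or the shift `k` is
`t_j + c` with `t_j` in a set with a sparse spectrum and the other shifts do not depend on `t_j` (`SparseFamily`).
-/

set_option autoImplicit false

open Finset Filter Polynomial ProbabilityTheory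

namespace Pool.Agent.Results.MP_4f18df_nt.PolynomialSigns

open Pool.Agent.HLT Pool.Agent.VN Pool.Agent.PTP Pool.Agent.MB Pool.Agent.MW

/-- The exponents `k, k + 1, …, 6 k - 1`. -/
def exponents (k : ℕ) : Finset ℕ := Ico k (6 * k)

/-- For every `b ≤ b₀`, every set `Θ` of real numbers which are `1 / H`-separated modulo one and satisfy
`|∑ t ∈ T, exp (2 π i t θ)| ≥ |T| / (log H)^b` has at most `(log H)^(F b)` elements. -/
def SparseSpectrum (F : ℕ → ℕ) (b₀ H : ℕ) (T : Finset ℕ) : Prop :=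
  ∀ b ≤ b₀, ∀ Θ : Finset ℝ,
    (∀ θ ∈ Θ, ∀ θ' ∈ Θ, θ ≠ θ' → ∀ k : ℤ, 1 / (H : ℝ) ≤ |θ - θ' - k|) →
    (∀ θ ∈ Θ, (T.card : ℝ) ≤ Real.log H ^ b *
      ‖∑ t ∈ T, Complex.exp (2 * Real.pi * Complex.I * (t * θ))‖) →
    (Θ.card : ℝ) ≤ Real.log H ^ F b

/-- The Möbius function at the shifts `s t i` is independent of arbitrary sequences, for almost all `t ∈ Ω`. -/
def Independent {τ : Type} (r K A x : ℕ) (Ω : Finset τ) (s : τ → Fin r → ℕ) : Prop :=
  ∀ (w : ℕ → ℂ) (g : Fin r → ℕ → ℂ), (∀ n : ℕ, 1 ≤ n → n ≤ x → ‖w n‖ ≤ Real.log x ^ K) →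
    (∀ i, ∀ n : ℕ, 1 ≤ n → n ≤ 2 * x → ‖g i n‖ ≤ Real.log x ^ K) →
    ∃ E ⊆ Ω, (E.card : ℝ) ≤ Ω.card / Real.log x ^ A ∧ ∀ t ∈ Ω, t ∉ E →
      ∀ J : Finset (Fin r), J.Nonempty → ∀ y : ℕ, y ≤ x →
        ‖∑ n ∈ Icc 1 y, w n * (∏ i ∈ Jᶜ, g i (n + s t i)) *
          ∏ i ∈ J, ((ArithmeticFunction.moebius (n + s t i) : ℤ) : ℂ)‖ ≤ x / Real.log x ^ A

/-- On `[0, H]` the function `f` is an integer polynomial of degree `d` whose coefficients of index `l ≥ 1` are at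
most `R H ^ (d - l)`. -/
def PolynomialOn (d H : ℕ) (R : ℝ) (f : ℕ → ℕ) : Prop :=
  ∃ Q : ℤ[X], Q.natDegree = d ∧ (∀ l : ℕ, 1 ≤ l → |(Q.coeff l : ℝ)| * (H : ℝ) ^ l ≤ R * (H : ℝ) ^ d) ∧
    ∀ t : ℕ, t ≤ H → (f t : ℤ) = Q.eval (t : ℤ)

/-- The shifts `σ t i`, `t ∈ T`, are polynomials in `t`, constant or of distinct degrees `d i ≤ δ`, and the shift `σ t k` is not
constant; `T` is a subset of `[0, H]` with at least `(H + 1) / (log x) ^ K` elements. -/
def PolynomialFamily {r : ℕ} (K δ : ℕ) (ε : ℝ) (x : ℕ) (T : Finset ℕ) (σ : ℕ → Fin r → ℕ) (k : Fin r) : Prop :=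
  ∃ (H : ℕ) (d : Fin r → ℕ), T ⊆ range (H + 1) ∧ (H : ℝ) + 1 ≤ Real.log x ^ K * T.card ∧ 0 < d k ∧
    (∀ i, d i ≤ δ) ∧ (∀ i i', i ≠ i' → d i = d i' → d i = 0) ∧
    (∀ i, 0 < d i → (x : ℝ) ^ (1 / 6 + ε) ≤ (H : ℝ) ^ d i ∧ H ^ d i ≤ x) ∧
    ∀ i, PolynomialOn (d i) H (Real.log x ^ K) (fun t => σ t i) ∧ ∀ t : ℕ, t ≤ H → σ t i ≤ x

/-- The shift `σ t k` is `t + c`, the others do not depend on `t ∈ T`, and `T` has a sparse spectrum at the scale `D`. -/
def SparseFamily {r : ℕ} (b₀ : ℕ) (F : ℕ → ℕ) (ε : ℝ) (x : ℕ) (T : Finset ℕ) (σ : ℕ → Fin r → ℕ) (k : Fin r) : Prop :=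
  ∃ D : ℕ, (x : ℝ) ^ (1 / 6 + ε) ≤ D ∧ D ≤ x ∧ SparseSpectrum F b₀ D T ∧ (∃ c : ℤ, ∀ t ∈ T, (σ t k : ℤ) = t + c) ∧
    (∀ i, i ≠ k → ∀ t ∈ T, ∀ t' ∈ T, σ t i = σ t' i) ∧ ∀ t ∈ T, ∀ i, σ t i ≤ x

lemma sep_iff (H : ℕ) (Θ : Finset ℝ) :
    (∀ θ ∈ Θ, ∀ θ' ∈ Θ, θ ≠ θ' → ∀ k : ℤ, 1 / (H : ℝ) ≤ |θ - θ' - k|) ↔ VK.Sep H Θ := by
  unfold VK.Sep
  refine forall_congr' fun θ => forall_congr' fun _ => forall_congr' fun θ' => forall_congr' fun _ =>
    forall_congr' fun _ => ?_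
  constructor
  · intro h
    exact h (round (θ - θ'))
  · intro h k
    exact h.trans (round_le (θ - θ') k)

lemma norm_WW (T : Finset ℕ) (θ : ℝ) :
    ‖∑ t ∈ T, Complex.exp (2 * Real.pi * Complex.I * (t * θ))‖ = ‖WW T θ‖ := by
  unfold WW ex
  congr 1
  refine Finset.sum_congr rfl fun t _ => ?_
  congr 1
  push_cast
  ring

lemma spb_iff (F : ℕ → ℕ) (b₀ H : ℕ) (T : Finset ℕ) : SparseSpectrum F b₀ H T ↔ SpB F b₀ H T := by
  unfold SparseSpectrum SpB
  refine forall_congr' fun b => forall_congr' fun _ => forall_congr' fun Θ => ?_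
  rw [sep_iff]
  simp only [norm_WW]

lemma independent_of {τ : Type} (r K A x : ℕ) (Ω : Finset τ) (s : τ → Fin r → ℕ)
    (h : UCm r 1 K A x Ω s) : Independent r K A x Ω s := by
  intro w g hw hg
  obtain ⟨E, hE1, hE2, hE3⟩ := h w (fun _ => g) (fun n hn => by
    rw [mem_Icc] at hn
    exact hw n hn.1 hn.2) (fun _ i n hn => by
    rw [mem_Icc] at hn
    exact hg i n hn.1 hn.2)
  refine ⟨E, hE1, hE2, fun t ht htE J hJ y hy => ?_⟩
  have h1 := hE3 t ht htE J (fun _ => 0) hJ y hy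
  simp only [mu] at h1
  simpa only [mul_assoc] using h1

private lemma rpow_le {L K : ℝ} (hL : 1 ≤ L) : L ^ K ≤ L ^ (⌈K⌉₊ : ℕ) := by
  rw [← Real.rpow_natCast]
  exact Real.rpow_le_rpow_of_exponent_le hL (Nat.le_ceil K)

private lemma div_le {L A M : ℝ} (hL : 1 ≤ L) (hM : 0 ≤ M) : M / L ^ (⌈A⌉₊ : ℕ) ≤ M / L ^ A :=
  div_le_div_of_nonneg_left hM (Real.rpow_pos_of_pos (by linarith) A) (rpow_le hL)

/-- Part 4. -/
theorem many (m r K A δ : ℕ) (F : ℕ → ℕ) (ε : ℝ) (hε : 0 < ε) : ∃ b₀ x₀ : ℕ, ∀ x : ℕ, x₀ ≤ x →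
    ∀ (T : Fin m → Finset ℕ) (s : (Fin m → ℕ) → Fin r → ℕ), (∀ p ∈ Fintype.piFinset T, ∀ i, s p i ≤ x) →
    (∀ k, ∃ j, ∀ p ∈ Fintype.piFinset T, PolynomialFamily K δ ε x (T j) (fun t => s (Function.update p j t)) k ∨
      SparseFamily b₀ F ε x (T j) (fun t => s (Function.update p j t)) k) →
    Independent r K A x (Fintype.piFinset T) s := by
  obtain ⟨b₀, h1⟩ := many_mu m r 1 K A δ F ε hε
  obtain ⟨x₀, hx₀⟩ := eventually_atTop.mp h1
  refine ⟨b₀, x₀, fun x hx T s hT hs => independent_of r K A x _ s (hx₀ x hx T s hT fun k => ?_)⟩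
  obtain ⟨j, hj⟩ := hs k
  refine ⟨j, fun p hp => (hj p hp).imp (fun h => h) (fun h => ?_)⟩
  obtain ⟨D, h1, h2, h3, h4⟩ := h
  exact ⟨D, h1, h2, (spb_iff F b₀ D (T j)).mp h3, h4⟩

/-- Part 3. -/
theorem one (r K A : ℕ) (ε : ℝ) (hε : 0 < ε) (d : Fin r → ℕ) (hd1 : ∀ i, 1 ≤ d i) (hd : Function.Injective d) :
    ∃ x₀ : ℕ, ∀ x : ℕ, x₀ ≤ x →
    ∀ H : ℕ, (∀ i, (x : ℝ) ^ (1 / 6 + ε) ≤ (H : ℝ) ^ d i ∧ H ^ d i ≤ x) →
    ∀ T ⊆ range (H + 1), (H : ℝ) + 1 ≤ Real.log x ^ K * T.card →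
    ∀ P : Fin r → ℤ[X], (∀ i, (P i).natDegree = d i) →
    (∀ i, ∀ l : ℕ, 1 ≤ l → |((P i).coeff l : ℝ)| * (H : ℝ) ^ l ≤ Real.log x ^ K * (H : ℝ) ^ d i) →
    (∀ i, ∀ t : ℕ, t ≤ H → 0 ≤ (P i).eval (t : ℤ) ∧ (P i).eval (t : ℤ) ≤ x) →
    Independent r K A x T (fun t i => ((P i).eval (t : ℤ)).toNat) := by
  obtain ⟨x₀, hx₀⟩ := eventually_atTop.mp (one_mu r 1 K A (∑ i, d i) ε hε)
  refine ⟨x₀, fun x hx H hH T hT hTc P hP1 hP2 hP3 => ?_⟩
  have hle : ∀ i, ∀ t : ℕ, t ≤ H → ((P i).eval (t : ℤ)).toNat ≤ x := by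
    intro i t ht
    have := (hP3 i t ht).2
    omega
  refine independent_of r K A x _ _ (hx₀ x hx T _ ?_ ?_)
  · intro t ht i
    have := Finset.mem_range.mp (hT ht)
    exact hle i t (by omega)
  · intro k
    refine ⟨H, d, hT, hTc, hd1 k, fun i => ?_, fun i i' hne heq => absurd (hd heq) hne, fun i _ => hH i, fun i => ⟨?_, hle i⟩⟩
    · exact Finset.single_le_sum (f := d) (fun _ _ => Nat.zero_le _) (Finset.mem_univ i)
    · refine ⟨P i, hP1 i, hP2 i, fun t ht => ?_⟩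
      exact Int.toNat_of_nonneg (hP3 i t ht).1

lemma mem_exponents {k j : ℕ} : j ∈ exponents k ↔ k ≤ j ∧ j < 6 * k := Finset.mem_Ico

/-- Part 1. -/
theorem patterns (k A : ℕ) (hk : 1 ≤ k) (ε : ℝ) (hε : 0 < ε) : ∃ x₀ : ℕ, ∀ x : ℕ, x₀ ≤ x →
    ∀ H : ℕ, (x : ℝ) ^ (1 / (6 * k) + ε : ℝ) ≤ H → H ^ (6 * k - 1) ≤ x →
    ∃ E : Finset ℕ, (E.card : ℝ) ≤ H / Real.log x ^ A ∧ ∀ t : ℕ, t ≤ H → t ∉ E →
      ∀ η : ℕ → ℤ, (∀ j, η j = -1 ∨ η j = 0 ∨ η j = 1) → ∀ y : ℕ, y ≤ x →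
        |(((Icc 1 y).filter (fun n : ℕ => ArithmeticFunction.moebius n = η 0 ∧
            ∀ j ∈ exponents k, ArithmeticFunction.moebius (n + t ^ j) = η j)).card : ℝ) -
          (((Icc 1 y).filter (fun n : ℕ => ArithmeticFunction.moebius n ^ 2 = η 0 ^ 2 ∧
            ∀ j ∈ exponents k, ArithmeticFunction.moebius (n + t ^ j) ^ 2 = η j ^ 2)).card : ℝ) /
            2 ^ ((insert 0 (exponents k)).filter (fun j => η j ≠ 0)).card| ≤ x / Real.log x ^ A := by
  obtain ⟨x₀, hx₀⟩ := eventually_atTop.mp ((pow_mu0 k (A + 1) hk ε hε).and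
    (Pool.Agent.HLU.ev_log ((4 : ℝ) ^ (5 * k + 1) + 1)))
  refine ⟨x₀, fun x hx H hH1 hH2 => ?_⟩
  obtain ⟨h1, hL⟩ := hx₀ x hx
  have h4 : (1 : ℝ) ≤ (4 : ℝ) ^ (5 * k + 1) := one_le_pow₀ (by norm_num)
  have hL1 : 1 ≤ Real.log x := by linarith
  have hL0 : 0 < Real.log x := by linarith
  obtain ⟨E, hE, h2⟩ := h1 H hH1 hH2
  refine ⟨E, hE.trans ?_, fun t ht htE η hη y hy => ?_⟩
  · exact div_le_div_of_nonneg_left (Nat.cast_nonneg _) (by positivity) (pow_le_pow_right₀ hL1 (by omega))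
  · have h3 := sgn_pat (5 * k + 1) x _ (by positivity) _ _ (h2 t ht htE) (fun i => if i = 0 then η 0 else η (k + (i - 1)))
      (fun i _ => by
        split_ifs
        · exact hη 0
        · exact hη _) y hy
    have hcard : ((range (5 * k + 1)).filter (fun i => (if i = 0 then η 0 else η (k + (i - 1))) ≠ 0)).card =
        ((insert 0 (exponents k)).filter (fun j => η j ≠ 0)).card := by
      refine Finset.card_bij (fun i _ => if i = 0 then 0 else k + (i - 1)) ?_ ?_ ?_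
      · intro i hi
        rw [mem_filter, mem_range] at hi
        rw [mem_filter, mem_insert, mem_exponents]
        split_ifs with h6
        · rw [if_pos h6] at hi
          exact ⟨Or.inl rfl, hi.2⟩
        · rw [if_neg h6] at hi
          exact ⟨Or.inr (by omega), hi.2⟩
      · intro i hi i' hi' h
        split_ifs at h <;> omega
      · intro j hj
        rw [mem_filter, mem_insert, mem_exponents] at hj
        rcases Nat.eq_zero_or_pos j with h6 | h6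
        · subst h6
          exact ⟨0, by rw [mem_filter, mem_range]; exact ⟨by omega, by simpa using hj.2⟩, by simp⟩
        · refine ⟨j - k + 1, ?_, ?_⟩
          · rw [mem_filter, mem_range, if_neg (by omega), show k + (j - k + 1 - 1) = j by omega]
            exact ⟨by omega, hj.2⟩
          · rw [if_neg (by omega)]
            omega
    rw [hcard] at h3
    have e1 : ∀ n : ℕ, (∀ i ∈ range (5 * k + 1), ArithmeticFunction.moebius (n + if i = 0 then 0 else t ^ (k + (i - 1))) =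
        if i = 0 then η 0 else η (k + (i - 1))) ↔ ArithmeticFunction.moebius n = η 0 ∧
        ∀ j ∈ exponents k, ArithmeticFunction.moebius (n + t ^ j) = η j := by
      intro n
      constructor
      · intro h
        refine ⟨by simpa using h 0 (by simp), fun j hj => ?_⟩
        rw [mem_exponents] at hj
        have h5 := h (j - k + 1) (by rw [mem_range]; omega)
        rw [if_neg (by omega), if_neg (by omega), show k + (j - k + 1 - 1) = j by omega] at h5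
        exact h5
      · rintro ⟨h0, h⟩ i hi
        rw [mem_range] at hi
        by_cases h6 : i = 0
        · rw [if_pos h6, if_pos h6, add_zero]
          exact h0
        · rw [if_neg h6, if_neg h6]
          exact h _ (by rw [mem_exponents]; omega)
    have e2 : ∀ n : ℕ, (∀ i ∈ range (5 * k + 1), ArithmeticFunction.moebius (n + if i = 0 then 0 else t ^ (k + (i - 1))) ^ 2 =
        (if i = 0 then η 0 else η (k + (i - 1))) ^ 2) ↔ ArithmeticFunction.moebius n ^ 2 = η 0 ^ 2 ∧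
        ∀ j ∈ exponents k, ArithmeticFunction.moebius (n + t ^ j) ^ 2 = η j ^ 2 := by
      intro n
      constructor
      · intro h
        refine ⟨by simpa only [if_true, add_zero] using h 0 (by simp), fun j hj => ?_⟩
        rw [mem_exponents] at hj
        have h5 := h (j - k + 1) (by rw [mem_range]; omega)
        rw [if_neg (by omega), if_neg (by omega), show k + (j - k + 1 - 1) = j by omega] at h5
        exact h5
      · rintro ⟨h0, h⟩ i hi
        rw [mem_range] at hi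
        by_cases h6 : i = 0
        · rw [if_pos h6, if_pos h6, add_zero]
          exact h0
        · rw [if_neg h6, if_neg h6]
          exact h _ (by rw [mem_exponents]; omega)
    rw [Finset.filter_congr (fun n _ => e1 n), Finset.filter_congr (fun n _ => e2 n)] at h3
    simp only [Finset.sum_const, nsmul_eq_mul, mul_one] at h3
    refine h3.trans ?_
    rw [pow_succ (Real.log x), ← mul_div_assoc, div_le_div_iff₀ (by positivity) (by positivity)]
    have h7 : (0 : ℝ) ≤ x * Real.log x ^ A := by positivity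
    have h8 : (4 : ℝ) ^ (5 * k + 1) * (x * Real.log x ^ A) ≤ Real.log x * (x * Real.log x ^ A) :=
      mul_le_mul_of_nonneg_right (by linarith) h7
    nlinarith

theorem result :
    -- 1. sign patterns of the Möbius function at `n, n + t ^ k, n + t ^ (k + 1), …, n + t ^ (6 k - 1)`
    (∀ k A : ℕ, 1 ≤ k → ∀ ε : ℝ, 0 < ε → ∃ x₀ : ℕ, ∀ x : ℕ, x₀ ≤ x →
      ∀ H : ℕ, (x : ℝ) ^ (1 / (6 * k) + ε : ℝ) ≤ H → H ^ (6 * k - 1) ≤ x →
      ∃ E : Finset ℕ, (E.card : ℝ) ≤ H / Real.log x ^ A ∧ ∀ t : ℕ, t ≤ H → t ∉ E →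
        ∀ η : ℕ → ℤ, (∀ j, η j = -1 ∨ η j = 0 ∨ η j = 1) → ∀ y : ℕ, y ≤ x →
          |(((Icc 1 y).filter (fun n : ℕ => ArithmeticFunction.moebius n = η 0 ∧
              ∀ j ∈ exponents k, ArithmeticFunction.moebius (n + t ^ j) = η j)).card : ℝ) -
            (((Icc 1 y).filter (fun n : ℕ => ArithmeticFunction.moebius n ^ 2 = η 0 ^ 2 ∧
              ∀ j ∈ exponents k, ArithmeticFunction.moebius (n + t ^ j) ^ 2 = η j ^ 2)).card : ℝ) /
              2 ^ ((insert 0 (exponents k)).filter (fun j => η j ≠ 0)).card| ≤ x / Real.log x ^ A) ∧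
    -- 2. normal law for `∑_{k ≤ j < 6 k} ± μ(n + j + t ^ j)`
    (∀ δ : ℝ, 0 < δ → ∃ k₀ : ℕ, ∀ k K A : ℕ, k₀ ≤ k → ∀ ε : ℝ, 0 < ε → ∃ x₀ : ℕ, ∀ x : ℕ, x₀ ≤ x →
      ∀ H : ℕ, (x : ℝ) ^ (1 / (6 * k) + ε : ℝ) ≤ H → H ^ (6 * k - 1) ≤ x →
      ∃ E : Finset ℕ, (E.card : ℝ) ≤ H / Real.log x ^ A ∧ ∀ t : ℕ, t ≤ H → t ∉ E →
        ∀ (y : ℕ) (c : ℕ → ℝ), y ≤ x → (x : ℝ) ≤ y * Real.log x ^ K → (∀ j, c j = 1 ∨ c j = -1) → ∀ s : ℝ,
          |(((Icc 1 y).filter (fun n : ℕ => ∑ j ∈ exponents k, c j * (ArithmeticFunction.moebius (n + j + t ^ j) : ℝ) ≤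
            s * Real.sqrt (5 * k / (Real.pi ^ 2 / 6)))).card : ℝ) / y - cdf (gaussianReal 0 1) s| ≤ δ) ∧
    -- 3. one parameter `t`, any number of shifts `P i (t)` with polynomials of distinct degrees
    (∀ (r K A : ℕ) (ε : ℝ), 0 < ε → ∀ d : Fin r → ℕ, (∀ i, 1 ≤ d i) → Function.Injective d →
      ∃ x₀ : ℕ, ∀ x : ℕ, x₀ ≤ x →
      ∀ H : ℕ, (∀ i, (x : ℝ) ^ (1 / 6 + ε) ≤ (H : ℝ) ^ d i ∧ H ^ d i ≤ x) →
      ∀ T ⊆ range (H + 1), (H : ℝ) + 1 ≤ Real.log x ^ K * T.card →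
      ∀ P : Fin r → ℤ[X], (∀ i, (P i).natDegree = d i) →
      (∀ i, ∀ l : ℕ, 1 ≤ l → |((P i).coeff l : ℝ)| * (H : ℝ) ^ l ≤ Real.log x ^ K * (H : ℝ) ^ d i) →
      (∀ i, ∀ t : ℕ, t ≤ H → 0 ≤ (P i).eval (t : ℤ) ∧ (P i).eval (t : ℤ) ≤ x) →
      Independent r K A x T (fun t i => ((P i).eval (t : ℤ)).toNat)) ∧
    -- 4. any number of parameters `p 0, …, p (m - 1)`, any number of shifts `s p 0, …, s p (r - 1)`
    (∀ (m r K A δ : ℕ) (F : ℕ → ℕ) (ε : ℝ), 0 < ε → ∃ b₀ x₀ : ℕ, ∀ x : ℕ, x₀ ≤ x →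
      ∀ (T : Fin m → Finset ℕ) (s : (Fin m → ℕ) → Fin r → ℕ), (∀ p ∈ Fintype.piFinset T, ∀ i, s p i ≤ x) →
      (∀ k, ∃ j, ∀ p ∈ Fintype.piFinset T, PolynomialFamily K δ ε x (T j) (fun t => s (Function.update p j t)) k ∨
        SparseFamily b₀ F ε x (T j) (fun t => s (Function.update p j t)) k) →
      Independent r K A x (Fintype.piFinset T) s) := by
  refine ⟨fun k A hk ε hε => patterns k A hk ε hε, fun δ hδ => ?_,
    fun r K A ε hε d hd1 hd => one r K A ε hε d hd1 hd, fun m r K A δ F ε hε => many m r K A δ F ε hε⟩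
  obtain ⟨k₀, _, h1⟩ := law_pow δ hδ
  refine ⟨k₀, fun k K A hk ε hε => ?_⟩
  obtain ⟨x₀, hx₀⟩ := eventually_atTop.mp (h1 k hk K A ε hε)
  refine ⟨x₀, fun x hx H hH1 hH2 => ?_⟩
  obtain ⟨E, hE, h2⟩ := hx₀ x hx H hH1 hH2
  refine ⟨E, hE, fun t ht htE y c hy1 hy2 hc s => ?_⟩
  have h3 := h2 t ht htE y (fun i => c (k + i)) hy1 hy2 (fun i => hc (k + i)) s
  have e1 : ∀ n : ℕ, ∑ i ∈ range (5 * k), c (k + i) * (ArithmeticFunction.moebius (n + ((k + i) + t ^ (k + i))) : ℝ) =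
      ∑ j ∈ exponents k, c j * (ArithmeticFunction.moebius (n + j + t ^ j) : ℝ) := by
    intro n
    unfold exponents
    rw [Finset.sum_Ico_eq_sum_range, show 6 * k - k = 5 * k by omega]
    refine Finset.sum_congr rfl fun i _ => ?_
    rw [← add_assoc n (k + i)]
  have e2 : Pool.Agent.P4f18df.c2 * (5 * k) = 5 * k / (Real.pi ^ 2 / 6) := by
    unfold Pool.Agent.P4f18df.c2
    have := Real.pi_pos
    field_simp
  simp only [e1, e2] at h3
  exact h3

end Pool.Agent.Results.MP_4f18df_nt.PolynomialSigns
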