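import Pool.Agent.Lib.P4f18dfQ.Final

/-!
# Good–Churchhouse laws for twists of the Möbius function by quadratic characters of small conductor

For almost all primes `p` (all but at most `P ^ (2 α + η)` of the primes in `(P, 2 P]`) the function
`μ(n) (n / p)` satisfies, for every `X` between `P ^ 3` and `exp (P ^ c)`, the variance conjecture in
short intervals of every length `H ≤ P ^ α`, with a power saving, and the Gaussian law for all
`H₀ ≤ H ≤ P ^ c`.
-/

set_option autoImplicit false

namespace Pool.Agent.Results.MP_4f18df_nt.SmallConductor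

open MeasureTheory ProbabilityTheory NumberTheorySymbols

theorem result :
    ∀ α η δ : ℝ, 0 < α → α < 1 / 2 → 0 < η → 0 < δ →
      ∃ c H₀ : ℝ, ∃ P₀ : ℕ, 0 < c ∧ ∀ P : ℕ, P₀ ≤ P →
        ∃ B : Finset ℕ, (B.card : ℝ) ≤ (P : ℝ) ^ (2 * α + η) ∧
          ∀ p : ℕ, p.Prime → P < p → p ≤ 2 * P → p ∉ B →
            ∀ X : ℝ, (P : ℝ) ^ 3 ≤ X → X ≤ Real.exp ((P : ℝ) ^ c) →
              (∀ H : ℝ, 1 ≤ H → H ≤ (P : ℝ) ^ α →
                |(∫ x in X..(2 * X),
                    (∑ n ∈ (Finset.range (⌊x + H⌋₊ + 1)).filter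
                      (fun n : ℕ => |(n : ℝ) - x| < H / 2),
                      (ArithmeticFunction.moebius n : ℝ) * ((J((n : ℤ) | p) : ℤ) : ℝ)) ^ 2) / X
                  - H / (Real.pi ^ 2 / 6)| ≤ (P : ℝ) ^ (-c) * H) ∧
              (∀ H t : ℝ, H₀ ≤ H → H ≤ (P : ℝ) ^ c →
                |(volume
                    {x : ℝ | x ∈ Set.Icc X (2 * X) ∧
                      (∑ n ∈ (Finset.range (⌊x + H⌋₊ + 1)).filter
                          (fun n : ℕ => |(n : ℝ) - x| < H / 2),
                          (ArithmeticFunction.moebius n : ℝ) * ((J((n : ℤ) | p) : ℤ) : ℝ))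
                        / Real.sqrt (H / (Real.pi ^ 2 / 6)) ≤ t}).toReal / X
                  - cdf (gaussianReal 0 1) t| ≤ δ) :=
  fun α η δ hα hα' hη hδ => Pool.Agent.P4f18dfQ.main α η δ hα hα' hη hδ

end Pool.Agent.Results.MP_4f18df_nt.SmallConductor
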