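import Pool.Agent.Lib.P4f18dfU.Final
import Pool.Agent.Lib.P4f18dfC.Final
import Pool.Agent.Lib.P4f18dfQ.Final

/-!
# The law of Good and Churchhouse for twists of the Möbius function by characters

For almost all primes `p` the sums of `μ(n) (n / p)` over the intervals of length `H` around the
`x ∈ [X, 2 X]`, divided by `√(H / ζ(2))`, tend in distribution, with all moments, to the standard
normal law, for all `H ≤ X ^ (1 - ε)` when `X = p ^ o(1)`, and for all `H = min(X, p) ^ o(1)` when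
`log log X = o(log p)`.

Part 1: the limit law, for one set `𝒬` of primes which contains all but `P / (log P) ^ A` of the
primes of `(P, 2 P]`.

Part 2: the law up to `δ` for all scales `X ≥ Y`, for all primes of `(P, 2 P]` but `P Y ^ (-B)`.

Part 3: complex characters modulo one prime `q`; in every direction of the complex plane
the sums of `μ(n) χ(n)` follow the law up to `δ`, for all `χ` but `q Y ^ (-B)` (`Y ≤ q ^ c`),
respectively `q ^ (1 + η) / min(Y, q)` (`Y > q ^ c`).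

Part 4: at the scales `X ≥ P ^ 3` all primes of `(P, 2 P]` but `P ^ (2 α + η)` satisfy the variance
law for all `1 ≤ H ≤ P ^ α`, with the error `P ^ (-c)`, and the normal law up to `δ` for
`H₀ ≤ H ≤ P ^ c`.
-/

set_option autoImplicit false

namespace Pool.Agent.Results.MP_4f18df_nt.TwistLaw

open MeasureTheory ProbabilityTheory NumberTheorySymbols Filter Topology

/-- `Z = M(x; H) / √(H / ζ(2))`, where `M(x; H)` is the sum of `μ(n) f(n)` over `|n - x| < H / 2`. -/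
noncomputable def Z (f : ℕ → ℝ) (H x : ℝ) : ℝ :=
  (∑ n ∈ (Finset.range (⌊x + H⌋₊ + 1)).filter (fun n : ℕ => |(n : ℝ) - x| < H / 2),
    (ArithmeticFunction.moebius n : ℝ) * f n) / Real.sqrt (H / (Real.pi ^ 2 / 6))

/-- The proportion of the `x ∈ [X, 2 X]` with `Z ≤ t`. -/
noncomputable def proportion (f : ℕ → ℝ) (X H t : ℝ) : ℝ :=
  (volume {x : ℝ | x ∈ Set.Icc X (2 * X) ∧ Z f H x ≤ t}).toReal / X

/-- The `k`-th moment of `Z` over `[X, 2 X]`. -/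
noncomputable def moment (f : ℕ → ℝ) (X H : ℝ) (k : ℕ) : ℝ := (∫ x in X..(2 * X), Z f H x ^ k) / X

/-- The distribution function of `Z` over `[X, 2 X]` is within `δ` of the one of the standard normal
law `N(0, 1)` and the `k`-th moment within `δ` of the one of `N(0, 1)`, `k ≤ L`. -/
def NearNormal (δ : ℝ) (L : ℕ) (f : ℕ → ℝ) (X H : ℝ) : Prop :=
  (∀ t : ℝ, |proportion f X H t - cdf (gaussianReal 0 1) t| ≤ δ) ∧
    ∀ k ≤ L, |moment f X H k - ∫ y, y ^ k ∂(gaussianReal 0 1)| ≤ δ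

/-- The Legendre symbol `(n / p)`. -/
noncomputable def legendre (p n : ℕ) : ℝ := ((J((n : ℤ) | p) : ℤ) : ℝ)

/-- `√2 Re (u χ(n))`. -/
noncomputable def realPart {q : ℕ} (χ : DirichletCharacter ℂ q) (u : ℂ) (n : ℕ) : ℝ :=
  Real.sqrt 2 * (u * χ (n : ZMod q)).re

/-- The range of the scales `X` and of the lengths `H`. -/
def InRange (c ε H₀ Y P X H : ℝ) : Prop :=
  Y ≤ X ∧ X ≤ Real.exp (P ^ c) ∧ H₀ ≤ H ∧ (H ≤ (min X P) ^ c ∨ X ≤ P ^ c ∧ H ≤ X ^ (1 - ε))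

private theorem prop_eq (f : ℕ → ℝ) (X H t : ℝ) :
    proportion f X H t =
      Pool.Agent.P4f18dfT.Gd (fun n => (ArithmeticFunction.moebius n : ℝ) * f n) X H t := rfl

private theorem mom_eq (f : ℕ → ℝ) (X H : ℝ) (k : ℕ) :
    moment f X H k =
      Pool.Agent.P4f18dfT.Md (fun n => (ArithmeticFunction.moebius n : ℝ) * f n) k X H := rfl

private theorem cu_eq {q : ℕ} (χ : DirichletCharacter ℂ q) (u : ℂ) :
    Pool.Agent.P4f18dfC.cu (fun n => χ (n : ZMod q)) u =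
      fun n => (ArithmeticFunction.moebius n : ℝ) * realPart χ u n := by
  funext n
  unfold Pool.Agent.P4f18dfC.cu Pool.Agent.P4f18dfC.mu realPart
  ring

private theorem mom_two (f : ℕ → ℝ) (X H : ℝ) (hH : 0 < H) :
    moment f X H 2 =
      (∫ x in X..(2 * X), (Pool.Agent.P4f18df.Ms
        (fun n => (ArithmeticFunction.moebius n : ℝ) * f n) x H) ^ 2) / X /
        (H / (Real.pi ^ 2 / 6)) := by
  have hpi := Real.pi_pos
  have h0 : 0 < H / (Real.pi ^ 2 / 6) := by positivity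
  have e : ∀ x, Z f H x ^ 2 = (Pool.Agent.P4f18df.Ms
        (fun n => (ArithmeticFunction.moebius n : ℝ) * f n) x H) ^ 2 / (H / (Real.pi ^ 2 / 6)) := by
    intro x
    show ((Pool.Agent.P4f18df.Ms (fun n => (ArithmeticFunction.moebius n : ℝ) * f n) x H) /
      Real.sqrt (H / (Real.pi ^ 2 / 6))) ^ 2 = _
    rw [div_pow, Real.sq_sqrt h0.le]
  unfold moment
  simp only [e]
  rw [intervalIntegral.integral_div]
  rw [div_right_comm]

theorem result :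
    -- 1. the limit law, for one set of primes
    (∀ A : ℝ, 0 < A → ∃ 𝒬 : Set ℕ, (∀ p ∈ 𝒬, p.Prime) ∧
      (∀ᶠ P : ℕ in atTop,
        ({p : ℕ | p.Prime ∧ P < p ∧ p ≤ 2 * P ∧ p ∉ 𝒬}.ncard : ℝ) ≤ P / Real.log P ^ A) ∧
      ∀ (p : ℕ → ℕ) (X H : ℕ → ℝ) (κ : ℝ), (∀ i, p i ∈ 𝒬) → Tendsto p atTop atTop →
        Tendsto H atTop atTop → 0 < κ → (∀ᶠ i in atTop, Real.log (p i) ^ κ ≤ X i) →
        (((∃ ε : ℝ, 0 < ε ∧ ∀ᶠ i in atTop, H i ≤ X i ^ (1 - ε)) ∧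
            Tendsto (fun i => Real.log (X i) / Real.log (p i)) atTop (𝓝 0)) ∨
          (Tendsto (fun i => Real.log (Real.log (X i)) / Real.log (p i)) atTop (𝓝 0) ∧
            Tendsto (fun i => Real.log (H i) / Real.log (min (X i) (p i))) atTop (𝓝 0))) →
        (∀ t : ℝ, Tendsto (fun i => proportion (legendre (p i)) (X i) (H i) t) atTop
          (𝓝 (cdf (gaussianReal 0 1) t))) ∧
        ∀ k : ℕ, Tendsto (fun i => moment (legendre (p i)) (X i) (H i) k) atTop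
          (𝓝 (∫ y, y ^ k ∂(gaussianReal 0 1)))) ∧
    -- 2. the law up to `δ`, with few exceptional primes
    (∀ (κ ε δ B : ℝ) (L : ℕ), 0 < κ → 0 < ε → 0 < δ → 0 < B →
      ∃ c H₀ : ℝ, ∃ P₀ : ℕ, 0 < c ∧ ∀ P : ℕ, P₀ ≤ P → ∀ Y : ℝ,
        Real.log P ^ κ ≤ Y → Y ≤ (P : ℝ) ^ c →
        ∃ E : Finset ℕ, (E.card : ℝ) ≤ P * Y ^ (-B) ∧
          ∀ p : ℕ, p.Prime → P < p → p ≤ 2 * P → p ∉ E → ∀ X H : ℝ, InRange c ε H₀ Y P X H →
            NearNormal δ L (legendre p) X H) ∧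
    -- 3. the characters modulo one prime
    (∀ (ε δ η B : ℝ) (L : ℕ), 0 < ε → 0 < δ → 0 < η → 0 < B →
      ∃ c H₀ : ℝ, 0 < c ∧ ∀ q : ℕ, q.Prime → ∀ Y : ℝ, H₀ ≤ Y →
        ∃ E : Finset (DirichletCharacter ℂ q),
          (Y ≤ (q : ℝ) ^ c → (E.card : ℝ) ≤ q * Y ^ (-B)) ∧
          ((q : ℝ) ^ c < Y → (E.card : ℝ) ≤ (q : ℝ) ^ (1 + η) / min Y q) ∧
          ∀ χ : DirichletCharacter ℂ q, χ ∉ E → ∀ X H : ℝ, InRange c ε H₀ Y q X H →
            ∀ u : ℂ, ‖u‖ = 1 → NearNormal δ L (realPart χ u) X H) ∧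
    -- 4. the variance law at the scales `X ≥ P ^ 3`
    (∀ α η δ : ℝ, 0 < α → α < 1 / 2 → 0 < η → 0 < δ →
      ∃ c H₀ : ℝ, ∃ P₀ : ℕ, 0 < c ∧ ∀ P : ℕ, P₀ ≤ P →
        ∃ E : Finset ℕ, (E.card : ℝ) ≤ (P : ℝ) ^ (2 * α + η) ∧
          ∀ p : ℕ, p.Prime → P < p → p ≤ 2 * P → p ∉ E →
            ∀ X : ℝ, (P : ℝ) ^ 3 ≤ X → X ≤ Real.exp ((P : ℝ) ^ c) →
              (∀ H : ℝ, 1 ≤ H → H ≤ (P : ℝ) ^ α →
                |moment (legendre p) X H 2 - 1| ≤ (P : ℝ) ^ (-c)) ∧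
              (∀ H t : ℝ, H₀ ≤ H → H ≤ (P : ℝ) ^ c →
                |proportion (legendre p) X H t - cdf (gaussianReal 0 1) t| ≤ δ)) := by
  refine ⟨?_, ?_, ?_, ?_⟩
  · intro A hA
    obtain ⟨𝒬, h1, h2, -, h4⟩ := Pool.Agent.P4f18dfU.law A hA
    refine ⟨𝒬, h1, ?_, ?_⟩
    · filter_upwards [h2] with P hP
      have hfin : {p : ℕ | p.Prime ∧ P < p ∧ p ≤ 2 * P ∧ p ∉ 𝒬}.Finite :=
        (Set.finite_Iic (2 * P)).subset fun p hp => hp.2.2.1
      rw [Set.ncard_eq_toFinset_card _ hfin]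
      exact hP _ fun p hp => by simpa using hp
    · intro p X H κ hpQ hp hH hκ hX hr
      exact h4 p X H hpQ hp hH κ hκ hX hr
  · intro κ ε δ B L hκ hε hδ hB
    obtain ⟨c, H₀, P₀, hc, h⟩ := Pool.Agent.P4f18dfT.main κ ε δ B L hκ hε hδ hB
    refine ⟨c, H₀, P₀, hc, fun P hP Y hY1 hY2 => ?_⟩
    obtain ⟨E, hE, h'⟩ := h P hP Y hY1 hY2
    exact ⟨E, hE, fun p hp1 hp2 hp3 hp4 X H hr =>
      h' p hp1 hp2 hp3 hp4 X H hr.1 hr.2.1 hr.2.2.1 hr.2.2.2⟩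
  · intro ε δ η B L hε hδ hη hB
    obtain ⟨c, H₀, hc, h⟩ := Pool.Agent.P4f18dfC.main ε δ η B L hε hδ hη hB
    refine ⟨c, H₀, hc, fun q hq Y hY => ?_⟩
    obtain ⟨E, hE1, hE2, hE'⟩ := h q hq Y hY
    refine ⟨E, hE1, hE2, fun χ hχ X H hr u hu => ?_⟩
    have h3 := hE' χ hχ X H hr.1 hr.2.1 hr.2.2.1 hr.2.2.2 u hu
    rw [cu_eq] at h3
    exact h3
  · intro α η δ hα hα' hη hδ
    obtain ⟨c, H₀, P₀, hc, h⟩ := Pool.Agent.P4f18dfQ.main α η δ hα hα' hη hδ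
    have hcast : Tendsto (fun P : ℕ => (P : ℝ)) atTop atTop := tendsto_natCast_atTop_atTop
    obtain ⟨P₁, hP₁⟩ := eventually_atTop.1
      (((tendsto_rpow_atTop (by positivity : 0 < c / 2)).comp hcast).eventually_ge_atTop
        (Real.pi ^ 2 / 6))
    refine ⟨c / 2, H₀, max (max P₀ P₁) 1, by positivity, fun P hP => ?_⟩
    have hP0 : P₀ ≤ P := le_trans (le_trans (le_max_left _ _) (le_max_left _ _)) hP
    have hP1 : P₁ ≤ P := le_trans (le_trans (le_max_right _ _) (le_max_left _ _)) hP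
    have hPR : (1 : ℝ) ≤ P := by exact_mod_cast le_trans (le_max_right _ _) hP
    have hPpos : (0 : ℝ) < P := by linarith
    have hcc : (P : ℝ) ^ (c / 2) ≤ (P : ℝ) ^ c :=
      Real.rpow_le_rpow_of_exponent_le hPR (by linarith)
    obtain ⟨E, hE, h'⟩ := h P hP0
    refine ⟨E, hE, fun p hp1 hp2 hp3 hp4 X hX1 hX2 => ?_⟩
    obtain ⟨g1, g2⟩ := h' p hp1 hp2 hp3 hp4 X hX1 (hX2.trans (Real.exp_le_exp.2 hcc))
    refine ⟨fun H hH1 hH2 => ?_, fun H t hH1 hH2 => g2 H t hH1 (hH2.trans hcc)⟩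
    have hH0 : 0 < H := by linarith
    have hpi := Real.pi_pos
    have ha : 0 < H / (Real.pi ^ 2 / 6) := by positivity
    have g3 := g1 H hH1 hH2
    rw [mom_two _ _ _ hH0]
    have hfm : (fun n => (ArithmeticFunction.moebius n : ℝ) * legendre p n) =
        Pool.Agent.P4f18dfQ.fm p := rfl
    rw [hfm]
    set I := (∫ x in X..(2 * X), (Pool.Agent.P4f18df.Ms (Pool.Agent.P4f18dfQ.fm p) x H) ^ 2) / X
      with hI
    have e1 : I / (H / (Real.pi ^ 2 / 6)) - 1 = (I - H / (Real.pi ^ 2 / 6)) / (H / (Real.pi ^ 2 / 6)) := by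
      field_simp
    rw [e1, abs_div, abs_of_pos ha, div_le_iff₀ ha]
    refine g3.trans ?_
    have e2 : (P : ℝ) ^ (-c) * (Real.pi ^ 2 / 6) ≤ (P : ℝ) ^ (-(c / 2)) := by
      have h5 : (P : ℝ) ^ (-c) = (P : ℝ) ^ (-(c / 2)) * ((P : ℝ) ^ (c / 2))⁻¹ := by
        rw [← Real.rpow_neg hPpos.le, ← Real.rpow_add hPpos]
        congr 1; ring
      have h6 : Real.pi ^ 2 / 6 ≤ (P : ℝ) ^ (c / 2) := hP₁ P hP1
      have h7 : 0 < (P : ℝ) ^ (c / 2) := Real.rpow_pos_of_pos hPpos _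
      have h8 : 0 < (P : ℝ) ^ (-(c / 2)) := Real.rpow_pos_of_pos hPpos _
      rw [h5, mul_assoc]
      calc (P : ℝ) ^ (-(c / 2)) * (((P : ℝ) ^ (c / 2))⁻¹ * (Real.pi ^ 2 / 6))
          ≤ (P : ℝ) ^ (-(c / 2)) * 1 := by
            apply mul_le_mul_of_nonneg_left _ h8.le
            rw [inv_mul_le_iff₀ h7]
            linarith
        _ = _ := mul_one _
    calc (P : ℝ) ^ (-c) * H = (P : ℝ) ^ (-c) * (Real.pi ^ 2 / 6) * (H / (Real.pi ^ 2 / 6)) := by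
          field_simp
      _ ≤ (P : ℝ) ^ (-(c / 2)) * (H / (Real.pi ^ 2 / 6)) :=
          mul_le_mul_of_nonneg_right e2 ha.le

end Pool.Agent.Results.MP_4f18df_nt.TwistLaw
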