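import Pool.Agent.Lib.P4f18dfT.Final

/-!
# Good–Churchhouse law for quadratic twists of the Möbius function, at every scale

For almost all primes `p` the function `μ(n) (n / p)` satisfies the Gaussian law in short intervals
around `x ∈ [X, 2X]` for EVERY `X` between `(log p)^κ` and `exp (p^c)`, for all `H` up to
`min(X, p)^c`, and for all `H ≤ X^(1-ε)` when `X ≤ p^c`.  The exceptional set for the scales `X ≥ Y`
has at most `P Y^(-B)` elements in `(P, 2P]`, for any fixed `B`.
-/

set_option autoImplicit false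

namespace Pool.Agent.Results.MP_4f18df_nt.TwistsAllScales

open MeasureTheory ProbabilityTheory NumberTheorySymbols

theorem result :
    ∀ (κ ε δ B : ℝ) (L : ℕ), 0 < κ → 0 < ε → 0 < δ → 0 < B →
      ∃ c H₀ : ℝ, ∃ P₀ : ℕ, 0 < c ∧ ∀ P : ℕ, P₀ ≤ P → ∀ Y : ℝ,
        (Real.log P) ^ κ ≤ Y → Y ≤ (P : ℝ) ^ c →
        ∃ E : Finset ℕ, (E.card : ℝ) ≤ P * Y ^ (-B) ∧
          ∀ p : ℕ, p.Prime → P < p → p ≤ 2 * P → p ∉ E →
            ∀ X H : ℝ, Y ≤ X → X ≤ Real.exp ((P : ℝ) ^ c) → H₀ ≤ H →
              (H ≤ (min X P) ^ c ∨ (X ≤ (P : ℝ) ^ c ∧ H ≤ X ^ (1 - ε))) →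
              (∀ t : ℝ,
                |(volume
                    {x : ℝ | x ∈ Set.Icc X (2 * X) ∧
                      (∑ n ∈ (Finset.range (⌊x + H⌋₊ + 1)).filter
                          (fun n : ℕ => |(n : ℝ) - x| < H / 2),
                          (ArithmeticFunction.moebius n : ℝ) * ((J((n : ℤ) | p) : ℤ) : ℝ))
                        / Real.sqrt (H / (Real.pi ^ 2 / 6)) ≤ t}).toReal / X
                  - cdf (gaussianReal 0 1) t| ≤ δ) ∧
              (∀ k ≤ L,
                |(∫ x in X..(2 * X),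
                    ((∑ n ∈ (Finset.range (⌊x + H⌋₊ + 1)).filter
                          (fun n : ℕ => |(n : ℝ) - x| < H / 2),
                          (ArithmeticFunction.moebius n : ℝ) * ((J((n : ℤ) | p) : ℤ) : ℝ))
                        / Real.sqrt (H / (Real.pi ^ 2 / 6))) ^ k) / X
                  - ∫ y, y ^ k ∂(gaussianReal 0 1)| ≤ δ) :=
  fun κ ε δ B L hκ hε hδ hB => Pool.Agent.P4f18dfT.main κ ε δ B L hκ hε hδ hB

end Pool.Agent.Results.MP_4f18df_nt.TwistsAllScales
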